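import Pool.Agent.W2helper22.CU.Stmts

set_option autoImplicit false

/-! A large subset whose projections are nearly uniform (project CU, piece REG). -/

namespace Pool.Agent.W2helper92.CU

open Pool.Agent.W2helper22.CU

variable {K N : ℕ}

/-- the projection -/
def pr (J : Finset (Fin K)) (x : Fin K → Fin N) : J → Fin N := fun i => x i

lemma pc_eq (S : Finset (Fin K → Fin N)) (J : Finset (Fin K)) : pc S J = (S.image (pr J)).card :=
  rfl

lemma pc_pos {S : Finset (Fin K → Fin N)} (hS : S.Nonempty) (J : Finset (Fin K)) : 0 < pc S J := by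
  rw [pc_eq]
  exact Finset.card_pos.2 (hS.image _)

lemma pc_mono {S T : Finset (Fin K → Fin N)} (h : T ⊆ S) (J : Finset (Fin K)) :
    pc T J ≤ pc S J := by
  rw [pc_eq, pc_eq]
  exact Finset.card_le_card (Finset.image_subset_image h)

lemma pc_le {S : Finset (Fin K → Fin N)} (hS : S.Nonempty) (J : Finset (Fin K)) :
    pc S J ≤ N ^ K := by
  have h1 : pc S J ≤ N ^ J.card := by
    rw [pc_eq]
    refine (Finset.card_le_univ _).trans ?_
    simp
  rcases Nat.eq_zero_or_pos N with hN | hN
  · subst hN
    obtain ⟨x, -⟩ := hS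
    rcases Nat.eq_zero_or_pos K with hK | hK
    · subst hK
      have : J.card = 0 := by
        have := Finset.card_le_univ J
        simpa using this
      rw [this] at h1
      exact h1
    · exact (x ⟨0, hK⟩).elim0
  · refine h1.trans (Nat.pow_le_pow_right hN ?_)
    have := Finset.card_le_univ J
    simpa using this

lemma mem_fib {S : Finset (Fin K → Fin N)} {J : Finset (Fin K)} {x y : Fin K → Fin N} :
    y ∈ fib S J x ↔ y ∈ S ∧ pr J y = pr J x := by
  unfold fib pr
  rw [Finset.mem_filter]
  constructor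
  · rintro ⟨h1, h2⟩
    exact ⟨h1, funext fun i => h2 i i.2⟩
  · rintro ⟨h1, h2⟩
    exact ⟨h1, fun i hi => congrFun h2 ⟨i, hi⟩⟩

lemma fib_congr {S : Finset (Fin K → Fin N)} {J : Finset (Fin K)} {x y : Fin K → Fin N}
    (h : pr J y = pr J x) : fib S J y = fib S J x := by
  ext z
  rw [mem_fib, mem_fib, h]

/-- the quantity to be maximised -/
noncomputable def ph (M : ℕ) (T : Finset (Fin K → Fin N)) : ℝ :=
  (T.card : ℝ) ^ M / ∏ J : Finset (Fin K), (pc T J : ℝ)

lemma prod_pos {T : Finset (Fin K → Fin N)} (hT : T.Nonempty) :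
    0 < ∏ J : Finset (Fin K), (pc T J : ℝ) :=
  Finset.prod_pos fun J _ => by exact_mod_cast pc_pos hT J

lemma main_ineq {M : ℕ} {S T : Finset (Fin K → Fin N)} (hS : S.Nonempty) (hT : T.Nonempty)
    (hTS : T ⊆ S) (h : ph M T ≤ ph M S) (J : Finset (Fin K)) :
    (T.card : ℝ) ^ M * pc S J ≤ (S.card : ℝ) ^ M * pc T J := by
  unfold ph at h
  rw [div_le_div_iff₀ (prod_pos hT) (prod_pos hS)] at h
  rw [← Finset.mul_prod_erase Finset.univ (fun J => (pc S J : ℝ)) (Finset.mem_univ J),
    ← Finset.mul_prod_erase Finset.univ (fun J => (pc T J : ℝ)) (Finset.mem_univ J)] at h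
  set P := ∏ J' ∈ Finset.univ.erase J, (pc S J' : ℝ) with hP
  set Q := ∏ J' ∈ Finset.univ.erase J, (pc T J' : ℝ) with hQ
  have hP0 : 0 < P := Finset.prod_pos fun J' _ => by exact_mod_cast pc_pos hS J'
  have hQP : Q ≤ P := Finset.prod_le_prod (fun J' _ => by positivity)
    (fun J' _ => by exact_mod_cast pc_mono hTS J')
  have h2 : (T.card : ℝ) ^ M * pc S J * P ≤ (S.card : ℝ) ^ M * pc T J * P := by
    calc (T.card : ℝ) ^ M * pc S J * P = (T.card : ℝ) ^ M * (pc S J * P) := by ring
      _ ≤ (S.card : ℝ) ^ M * (pc T J * Q) := h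
      _ ≤ (S.card : ℝ) ^ M * (pc T J * P) := by gcongr
      _ = (S.card : ℝ) ^ M * pc T J * P := by ring
  exact le_of_mul_le_mul_right h2 hP0

theorem p_reg : P_REG := by
  intro K N S hS M hM
  obtain ⟨S', hS'm, hmax⟩ := Finset.exists_max_image (S.powerset.filter Finset.Nonempty)
    (fun T => ph M T) ⟨S, by simp [hS]⟩
  rw [Finset.mem_filter, Finset.mem_powerset] at hS'm
  obtain ⟨hsub, hne⟩ := hS'm
  have hmax' : ∀ T ⊆ S, T.Nonempty → ph M T ≤ ph M S' := fun T h1 h2 =>
    hmax T (by rw [Finset.mem_filter, Finset.mem_powerset]; exact ⟨h1, h2⟩)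
  have key : ∀ T ⊆ S', T.Nonempty → ∀ J : Finset (Fin K),
      (T.card : ℝ) ^ M * pc S' J ≤ (S'.card : ℝ) ^ M * pc T J := fun T h1 h2 J =>
    main_ineq hne h2 h1 (hmax' T (h1.trans hsub) h2) J
  have hs0 : (0:ℝ) < S'.card := by exact_mod_cast Finset.card_pos.2 hne
  refine ⟨S', hsub, hne, ?_, ?_, ?_⟩
  · have h1 := hmax' S (Finset.Subset.refl _) hS
    unfold ph at h1
    rw [div_le_div_iff₀ (prod_pos hS) (prod_pos hne)] at h1
    have h2 : (1:ℝ) ≤ ∏ J : Finset (Fin K), (pc S' J : ℝ) := by
      have : (1:ℕ) ≤ ∏ J : Finset (Fin K), pc S' J :=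
        Nat.succ_le_of_lt (Finset.prod_pos fun J _ => pc_pos hne J)
      exact_mod_cast this
    have h3 : ∏ J : Finset (Fin K), (pc S J : ℝ) ≤ (N : ℝ) ^ (K * 2 ^ K) := by
      calc ∏ J : Finset (Fin K), (pc S J : ℝ) ≤ ∏ J : Finset (Fin K), (N : ℝ) ^ K :=
            Finset.prod_le_prod (fun _ _ => by positivity)
              (fun J _ => by exact_mod_cast pc_le hS J)
        _ = (N : ℝ) ^ (K * 2 ^ K) := by
            rw [Finset.prod_const, ← pow_mul]
            simp
    calc (S.card : ℝ) ^ M ≤ (S.card : ℝ) ^ M * ∏ J : Finset (Fin K), (pc S' J : ℝ) :=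
          le_mul_of_one_le_right (by positivity) h2
      _ ≤ (S'.card : ℝ) ^ M * ∏ J : Finset (Fin K), (pc S J : ℝ) := h1
      _ ≤ (S'.card : ℝ) ^ M * (N : ℝ) ^ (K * 2 ^ K) := by gcongr
  · intro J x hx
    set F := fib S' J x with hF
    have hxF : x ∈ F := by rw [hF, mem_fib]; exact ⟨hx, rfl⟩
    have hFS : F ⊆ S' := fun y hy => by
      rw [hF, mem_fib] at hy; exact hy.1
    have hF1 : 1 ≤ F.card := Finset.card_pos.2 ⟨x, hxF⟩
    have hq1 : 1 ≤ pc S' J := pc_pos hne J
    by_cases hTn : (S' \ F).Nonempty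
    · have h1 := key (S' \ F) Finset.sdiff_subset hTn J
      have h2 : pc (S' \ F) J + 1 ≤ pc S' J := by
        rw [pc_eq, pc_eq]
        have h3 : (S' \ F).image (pr J) ⊆ (S'.image (pr J)).erase (pr J x) := by
          intro y hy
          rw [Finset.mem_image] at hy
          obtain ⟨z, hz, rfl⟩ := hy
          rw [Finset.mem_sdiff] at hz
          rw [Finset.mem_erase]
          refine ⟨fun h => hz.2 ?_, Finset.mem_image_of_mem _ hz.1⟩
          rw [hF, mem_fib]
          exact ⟨hz.1, h⟩
        have h4 := Finset.card_le_card h3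
        rw [Finset.card_erase_of_mem (Finset.mem_image_of_mem _ hx)] at h4
        have h5 : 0 < (S'.image (pr J)).card := Finset.card_pos.2 (hne.image _)
        omega
      have h2' : (pc (S' \ F) J : ℝ) ≤ pc S' J - 1 := by
        have : ((pc (S' \ F) J + 1 : ℕ) : ℝ) ≤ pc S' J := by exact_mod_cast h2
        push_cast at this
        linarith
      have hcard : ((S' \ F).card : ℝ) = S'.card - F.card := by
        rw [Finset.card_sdiff_of_subset hFS, Nat.cast_sub (Finset.card_le_card hFS)]
      set s : ℝ := (S'.card : ℝ) with hs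
      set f : ℝ := (F.card : ℝ) with hf
      set q : ℝ := (pc S' J : ℝ) with hq
      have hq0 : 0 < q := by rw [hq]; exact_mod_cast hq1
      have hfs : f ≤ s := by rw [hf, hs]; exact_mod_cast Finset.card_le_card hFS
      have hf0 : 0 < f := by rw [hf]; exact_mod_cast hF1
      rw [hcard] at h1
      have h6 : (s - f) ^ M * q ≤ s ^ M * (q - 1) := h1.trans (by gcongr)
      have h7 : ((s - f) / s) ^ M * q ≤ q - 1 := by
        rw [div_pow, div_mul_eq_mul_div, div_le_iff₀ (by positivity)]
        linarith
      have h8 : 1 + (M : ℝ) * (-(f / s)) ≤ (1 + -(f / s)) ^ M := by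
        apply one_add_mul_le_pow
        have : f / s ≤ 1 := by rw [div_le_one hs0]; exact hfs
        linarith
      have h9 : 1 + -(f / s) = (s - f) / s := by field_simp; ring
      rw [h9] at h8
      have h10 : (1 + (M : ℝ) * (-(f / s))) * q ≤ q - 1 := (mul_le_mul_of_nonneg_right h8 hq0.le).trans h7
      have h11 : 1 ≤ (M : ℝ) * (f / s) * q := by nlinarith
      have h12 : s ≤ M * q * f := by
        have : (M : ℝ) * (f / s) * q = (M * q * f) / s := by field_simp
        rw [this, le_div_iff₀ hs0] at h11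
        linarith
      rw [hs, hq, hf] at h12
      exact_mod_cast h12
    · rw [Finset.not_nonempty_iff_eq_empty, Finset.sdiff_eq_empty_iff_subset] at hTn
      have h1 := Finset.card_le_card hTn
      calc S'.card ≤ F.card := h1
        _ = 1 * 1 * F.card := by ring
        _ ≤ M * pc S' J * F.card := by gcongr; omega
  · intro J β hβ
    set T := S'.filter (fun x => β * S'.card ≤ pc S' J * (fib S' J x).card) with hT
    by_cases hTn : T.Nonempty
    · have hTS : T ⊆ S' := Finset.filter_subset _ _
      have h1 := key T hTS hTn J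
      have hT0 : (0:ℝ) < T.card := by exact_mod_cast Finset.card_pos.2 hTn
      have hq0 : (0:ℝ) < pc S' J := by exact_mod_cast pc_pos hne J
      have h2 : β * S'.card * pc T J ≤ pc S' J * T.card := by
        have h3 : T.card = ∑ y ∈ T.image (pr J), (T.filter (fun x => pr J x = y)).card :=
          Finset.card_eq_sum_card_image _ _
        have h4 : ∀ y ∈ T.image (pr J), β * S'.card ≤
            pc S' J * ((T.filter (fun x => pr J x = y)).card : ℝ) := by
          intro y hy
          rw [Finset.mem_image] at hy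
          obtain ⟨x, hx, rfl⟩ := hy
          have h5 : T.filter (fun z => pr J z = pr J x) = fib S' J x := by
            ext z
            rw [Finset.mem_filter, mem_fib, hT, Finset.mem_filter]
            constructor
            · rintro ⟨⟨h6, -⟩, h7⟩
              exact ⟨h6, h7⟩
            · rintro ⟨h6, h7⟩
              refine ⟨⟨h6, ?_⟩, h7⟩
              rw [fib_congr h7]
              rw [hT, Finset.mem_filter] at hx
              exact hx.2
          rw [h5]
          rw [hT, Finset.mem_filter] at hx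
          exact hx.2
        calc β * S'.card * pc T J = ∑ y ∈ T.image (pr J), β * (S'.card : ℝ) := by
              rw [Finset.sum_const, nsmul_eq_mul, pc_eq]; ring
          _ ≤ ∑ y ∈ T.image (pr J), pc S' J * ((T.filter (fun x => pr J x = y)).card : ℝ) :=
              Finset.sum_le_sum h4
          _ = pc S' J * T.card := by
              rw [← Finset.mul_sum]
              congr 1
              rw [h3]
              push_cast
              rfl
      -- combine
      have hβ0 : 0 < β := by linarith
      obtain ⟨m, rfl⟩ : ∃ m, M = m + 1 := ⟨M - 1, by omega⟩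
      rw [Nat.add_sub_cancel]
      set s : ℝ := (S'.card : ℝ) with hs
      set t : ℝ := (T.card : ℝ) with ht
      set q : ℝ := (pc S' J : ℝ) with hq
      set r : ℝ := (pc T J : ℝ) with hr
      -- t^(m+1) q ≤ s^(m+1) r, β s r ≤ q t
      have h6 : t ^ m * β * (t * q) ≤ s ^ m * (t * q) := by
        calc t ^ m * β * (t * q) = β * (t ^ (m + 1) * q) := by ring
          _ ≤ β * (s ^ (m + 1) * r) := by gcongr
          _ = s ^ m * (β * s * r) := by ring
          _ ≤ s ^ m * (q * t) := by gcongr
          _ = s ^ m * (t * q) := by ring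
      exact le_of_mul_le_mul_right h6 (by positivity)
    · rw [Finset.not_nonempty_iff_eq_empty] at hTn
      rw [hTn, Finset.card_empty, Nat.cast_zero, zero_pow (by omega), zero_mul]
      positivity

end Pool.Agent.W2helper92.CU
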